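import Mathlib
import Pool.Agent.Y408.SG.CofOmega

set_option autoImplicit false

/-!
# Adding `κ` Cohen reals gives `2 ^< κ ↛ (κ, 4)³`, for every `κ > ω` of cofinality `ω`

Here `2 ^< κ` is the weak power, the supremum of `2 ^ ρ` over `ρ < κ` (Mathlib: `Cardinal.powerlt`).

Let `κ` be the limit of a strictly increasing sequence `c 0 < c 1 < ...` of infinite cardinals, and
add `κ` Cohen reals to any model of ZFC. Cardinals are preserved, and with the ground model cardinal
`λ = 2 ^< κ` one has `λ ↛ (κ, 4)³` in the extension. If `κ < 2 ^< κ`, and `2 ^ ρ < 2 ^< κ` for all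
`ρ < κ`, in the ground model, then `λ` is the cardinal `2 ^< κ` of the extension, and both
hypotheses hold there too.

The case `κ = ℵ_ω`, `c n = ℵ_n` is Q2 of the problem, read with the weak power: its hypothesis does
not imply `2 ^< ℵ_ω → (ℵ_ω, 4)³`.
-/

open Cardinal Set Pool.Agent.Helper292.SP Pool.Agent.H631R2

namespace Pool.Agent.Results.MP_a45f51_lc.CofinalityOmega

/-- In the extension, for every `n` there is a proper initial segment `S` of `L` with
`2 ^ |N n| ≤ |S|` (if `L` is a cardinal of the extension, this is `2 ^ |N n| < |L|`). -/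
def HypLt (P : Type) [Preorder P] (N : ℕ → Type) (L : Type) [LinearOrder L] : Set P :=
  fall fun n : ℕ => fex fun a : L => PowLE P (N n) (Iio a)

/-- Let `κ` be a cardinal and `c` a strictly increasing sequence of infinite cardinals cofinal in
`κ`. The forcing `Cond (κ × ω)` of the finite partial functions from `κ × ω` to `{0, 1}`, which
adds `κ` Cohen reals, has the countable chain condition, and each of its conditions forces that
cardinals are preserved and that `2 ^< κ` (as computed in the ground model) `↛ (κ, 4)³`.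
If moreover `κ < 2 ^< κ`, and `2 ^ x < 2 ^< κ` for all `x < κ`, in the ground model, then each
condition forces that `2 ^< κ` (as computed in the ground model) is the cardinal
`sup {2 ^ c n : n < ω} = 2 ^< κ` of the extension, that in the extension `κ < 2 ^ c n` for some
`n`, and that in the extension `2 ^ c n < 2 ^< κ` for all `n`. -/
theorem result (κ : Cardinal.{0}) (c : ℕ → Cardinal.{0}) (c0 : ∀ n, ℵ₀ ≤ c n)
    (cm : StrictMono c) (ck : ∀ n, c n < κ) (cof : ∀ x < κ, ∃ n, x ≤ c n) :
    CCC (Cond (κ.ord.ToType × ℕ)) ∧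
    (∀ p : Cond (κ.ord.ToType × ℕ),
      (∀ X Y : Type, ℵ₀ ≤ #X → #X < #Y → p ∈ NoOnto (Cond (κ.ord.ToType × ℕ)) X Y) ∧
      p ∈ NArrow (Cond (κ.ord.ToType × ℕ)) ((2 : Cardinal.{0}) ^< κ).ord.ToType
        κ.ord.ToType 4 3) ∧
    (κ < (2 : Cardinal.{0}) ^< κ →
      (∀ x < κ, (2 : Cardinal.{0}) ^ x < (2 : Cardinal.{0}) ^< κ) →
      ∀ p : Cond (κ.ord.ToType × ℕ),
        p ∈ IsSupPow (Cond (κ.ord.ToType × ℕ)) (fun n => (c n).ord.ToType)
          ((2 : Cardinal.{0}) ^< κ).ord.ToType ∧
        p ∈ HypOne (Cond (κ.ord.ToType × ℕ)) (fun n => (c n).ord.ToType) κ.ord.ToType ∧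
        p ∈ HypLt (Cond (κ.ord.ToType × ℕ)) (fun n => (c n).ord.ToType)
          ((2 : Cardinal.{0}) ^< κ).ord.ToType) := by
  have hP : CCC (Cond (κ.ord.ToType × ℕ)) := ccc_cond _
  let R : Pool.Agent.Y408.SG.Cf := ⟨κ, c, c0, cm, ck, cof⟩
  refine ⟨hP, fun p => ⟨fun X Y hX hXY => hP.noOnto hX hXY p, R.forced3_LL p⟩, ?_⟩
  intro h1 h2 p
  obtain ⟨-, a, -, b, d, -, -⟩ := R.main h1 h2 p
  exact ⟨a, b, d⟩

end Pool.Agent.Results.MP_a45f51_lc.CofinalityOmega
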